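import Mathlib
import Pool.Agent.W51.CCP.Final

set_option autoImplicit false

/-!
Empty intervals of the cycle-continuous order between graphs whose smallest odd cuts have
different sizes.
-/

namespace Pool.Agent.Results.MP_219f5b_co.GapsAcrossOddCuts

open Pool.Agent.H126R2.CDC (MGraph)
open Pool.Agent.W51.FCC (cut)
open Pool.Agent.W51.CCP (CC addT Gap)

/-- `s` is the smallest size of an odd edge cut of `G`. -/
def LeastOdd {V E : Type} [Fintype V] [DecidableEq V] [Fintype E] [DecidableEq E]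
    (G : MGraph V E) (s : ℕ) : Prop :=
  Odd s ∧ (∃ X, (cut G X).card = s) ∧ ∀ X, Odd (cut G X).card → s ≤ (cut G X).card

theorem result : ∀ (V E V' E' : Type) [Fintype V] [DecidableEq V] [Fintype E] [DecidableEq E]
    [Fintype V'] [DecidableEq V'] [Fintype E'] [DecidableEq E'] [Nonempty E] [Nonempty E']
    (a : MGraph V E) (b : MGraph V' E'), CC a b → ¬ CC b a →
    ∃ s : ℕ, LeastOdd b s ∧ (∀ Y, Odd (cut a Y).card → s ≤ (cut a Y).card) ∧
      CC (addT a (Fin s)) b ∧
      ((∀ Y, (cut a Y).card ≠ s) →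
        (Gap a b ↔ (CC b (addT a (Fin s)) ∧
          ∀ (W F : Type) [Fintype W] [DecidableEq W] [Fintype F] [DecidableEq F] [Nonempty F]
            (y : MGraph W F), (∀ Z, Odd (cut y Z).card → s < (cut y Z).card) →
              CC y b → CC y a)) ∧
        (Gap a b → LeastOdd a (s + 2))) := by
  intro V E V' E' _ _ _ _ _ _ _ _ _ _ a b hab hba
  have hex : ∃ X, Odd (cut b X).card := by
    by_contra hcon
    push Not at hcon
    exact hba (Pool.Agent.W51.CCP.eulerian_cc b a (fun X => by simpa using hcon X))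
  obtain ⟨X0, hX0⟩ := hex
  obtain ⟨X, hX, hmin⟩ := Finset.exists_min_image
    ((Finset.univ : Finset (Finset V')).filter (fun X => Odd (cut b X).card))
    (fun X => (cut b X).card) ⟨X0, Finset.mem_filter.2 ⟨Finset.mem_univ _, hX0⟩⟩
  have hXo : Odd (cut b X).card := (Finset.mem_filter.1 hX).2
  have hb : ∀ Y, Odd (cut b Y).card → (cut b X).card ≤ (cut b Y).card := fun Y hY =>
    hmin Y (Finset.mem_filter.2 ⟨Finset.mem_univ _, hY⟩)
  refine ⟨(cut b X).card, ⟨hXo, ⟨X, rfl⟩, hb⟩, ?_,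
    Pool.Agent.W51.CCP.bundle_cc a b hab X, ?_⟩
  · intro Y hY
    obtain ⟨Z, hZ1, hZ2⟩ := Pool.Agent.W51.CCP.mono a b hab Y hY
    exact (hb Z hZ1).trans hZ2
  · intro hne
    refine ⟨Pool.Agent.W51.CCP.gap_iff a b hab hba _ hXo ⟨X, rfl⟩ hb hne, ?_⟩
    intro hg
    obtain ⟨s', hs', ⟨X', hX'⟩, hmin', -, hcase⟩ := Pool.Agent.W51.CCP.gap a b hab hba hg
    have hss : s' = (cut b X).card := by
      have h1 := hmin' X hXo
      have h2 := hb X' (by rw [hX']; exact hs')
      omega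
    subst hss
    rcases hcase with ⟨Y, hY⟩ | ⟨h1, h2, -, -⟩
    · exact absurd hY (hne Y)
    · obtain ⟨r, hr⟩ := hXo
      exact ⟨⟨r + 1, by omega⟩, h1, h2⟩

end Pool.Agent.Results.MP_219f5b_co.GapsAcrossOddCuts
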